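import Pool.Agent.R215.HS.Half

/-!
MP_e4c1d4_an, Q1 (positive answer, in every dimension): in the half-space
`{x ∈ ℝ^N : x_N > 0}`, `N = n + 1 ≥ 1`, the only solution of `-Δu = u - 1`, `u = 0` on the boundary,
which is nonnegative and bounded on every strip `0 ≤ x_N ≤ M`, is `u = 1 - cos x_N`.

The `N`-th coordinate of `x` is `x (Fin.last n)`.
-/

namespace Pool.Agent.Results.MP_e4c1d4_an.UniqueHalfSpace

/-- the open half-space `x_N > 0` of `ℝ^N`, `N = n + 1` -/
def openHalf (n : ℕ) : Set (EuclideanSpace ℝ (Fin (n + 1))) := {x | 0 < x (Fin.last n)}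

/-- the closed half-space `x_N ≥ 0` of `ℝ^N`, `N = n + 1` -/
def closedHalf (n : ℕ) : Set (EuclideanSpace ℝ (Fin (n + 1))) := {x | 0 ≤ x (Fin.last n)}

/-- `u` solves `-Δu = u - 1` in the open half-space and `u = 0` on its boundary; only `C²` regularity
in the open half-space and continuity on the closed half-space are asked for. -/
structure IsSolution {n : ℕ} (u : EuclideanSpace ℝ (Fin (n + 1)) → ℝ) : Prop where
  contDiffOn : ContDiffOn ℝ 2 u (openHalf n)
  continuousOn : ContinuousOn u (closedHalf n)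
  equation : ∀ x ∈ openHalf n, -(Laplacian.laplacian u x) = u x - 1
  boundary : ∀ x, x (Fin.last n) = 0 → u x = 0

/-- Hypothesis (H): for every `M > 0` there is `C > 0` with `0 ≤ u ≤ C` on the strip
`0 ≤ x_N ≤ M`. -/
def HypothesisH {n : ℕ} (u : EuclideanSpace ℝ (Fin (n + 1)) → ℝ) : Prop :=
  ∀ M : ℝ, 0 < M → ∃ C : ℝ, 0 < C ∧
    ∀ x, 0 ≤ x (Fin.last n) → x (Fin.last n) ≤ M → 0 ≤ u x ∧ u x ≤ C

/-- In every dimension, a solution satisfying (H) is `1 - cos x_N`. -/
theorem result (n : ℕ) (u : EuclideanSpace ℝ (Fin (n + 1)) → ℝ) (hu : IsSolution u)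
    (hH : HypothesisH u) : ∀ x ∈ closedHalf n, u x = 1 - Real.cos (x (Fin.last n)) := by
  intro x hx
  refine Pool.Agent.R215.HS.half_space hu.contDiffOn hu.continuousOn hu.equation hu.boundary
    (fun M hM => ?_) x hx
  obtain ⟨C, _, hC⟩ := hH M hM
  exact ⟨C, hC⟩

end Pool.Agent.Results.MP_e4c1d4_an.UniqueHalfSpace
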